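import Pool.Agent.Lib.MP_f1e3b4_an.Own

/-!
# MP_f1e3b4_an, Q1: the limit is zero, uniformly over `N ≤ 4M - 5` and over the variance
-/

set_option autoImplicit false

open scoped NNReal

open MPf1e3.Own

namespace Pool.Agent.Results.MP_f1e3b4_an.AtMostFourMMinusFive

/-- For every `ε > 0` there is `M₀` such that for all `M ≥ M₀`, all `N ≤ 4M - 5` and every
variance, the probability that a complex Gaussian `N × M` matrix is injective for complex phase
retrieval is at most `ε`. -/
theorem result (ε : ℝ) (hε : 0 < ε) :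
    ∃ M₀ : ℕ, ∀ M ≥ M₀, ∀ N ≤ 4 * M - 5, ∀ v : ℝ≥0, v ≠ 0 →
      gaussianMatrix N M v {A | InjectivePR (Matrix.of A)} ≤ ENNReal.ofReal ε :=
  main (MPf1e3.All.main (MPf1e3.specKI1 MPf1e3.specProb MPf1e3.specAvg MPf1e3.specPos)) ε hε

end Pool.Agent.Results.MP_f1e3b4_an.AtMostFourMMinusFive
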